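import Mathlib

open MvPolynomial

universe u

namespace Pool.Agent.Y188.FP

variable (k : Type u) [Field k] {r : ℕ} (M : Set (Fin r →₀ ℕ))

/-- the monomial ideal generated by the monomials with exponents in `M` -/
noncomputable def monoIdeal : Ideal (MvPolynomial (Fin r) k) :=
  Ideal.span ((fun c => monomial c (1 : k)) '' M)

/-- points of the quotient by a monomial ideal -/
noncomputable def algEquiv (T : Type u) [CommRing T] [Algebra k T] :
    ((MvPolynomial (Fin r) k ⧸ monoIdeal k M) →ₐ[k] T) ≃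
      {b : Fin r → T // ∀ c ∈ M, ∏ i, b i ^ c i = 0} where
  toFun f := ⟨fun i => f (Ideal.Quotient.mk _ (X i)), by
    intro c hc
    have h1 : Ideal.Quotient.mk (monoIdeal k M) (monomial c 1) = 0 := by
      rw [Ideal.Quotient.eq_zero_iff_mem]
      exact Ideal.subset_span ⟨c, hc, rfl⟩
    have h2 := congrArg f h1
    rw [monomial_eq, C_1, one_mul, Finsupp.prod_fintype _ _ (fun i => pow_zero _), map_prod,
      map_prod, map_zero] at h2
    simp only [map_pow] at h2
    exact h2⟩
  invFun b := Ideal.Quotient.liftₐ _ (aeval b.1) (by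
    intro a ha
    have h1 : monoIdeal k M ≤ RingHom.ker (aeval (R := k) b.1) := by
      rw [monoIdeal, Ideal.span_le]
      rintro _ ⟨c, hc, rfl⟩
      change aeval b.1 (monomial c (1 : k)) = 0
      rw [aeval_monomial, map_one, one_mul, Finsupp.prod_fintype _ _ (fun i => pow_zero _)]
      exact b.2 c hc
    exact h1 ha)
  left_inv f := by
    apply Ideal.Quotient.algHom_ext
    apply MvPolynomial.algHom_ext
    intro i
    exact aeval_X _ i
  right_inv b := by
    apply Subtype.ext
    funext i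
    exact aeval_X _ i

variable {M}

lemma mk_X_nilpotent (hM : ∀ i, ∃ c, Finsupp.single i c ∈ M) (i : Fin r) :
    IsNilpotent (Ideal.Quotient.mk (monoIdeal k M) (X i)) := by
  obtain ⟨c, hc⟩ := hM i
  refine ⟨c, ?_⟩
  rw [← map_pow, Ideal.Quotient.eq_zero_iff_mem, X_pow_eq_monomial]
  exact Ideal.subset_span ⟨_, hc, rfl⟩

/-- the augmentation -/
noncomputable def aug (h0 : (0 : Fin r →₀ ℕ) ∉ M) :
    (MvPolynomial (Fin r) k ⧸ monoIdeal k M) →ₐ[k] k :=
  (algEquiv k M k).symm ⟨fun _ => 0, by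
    intro c hc
    obtain ⟨i, hi⟩ : ∃ i, c i ≠ 0 := by
      by_contra hcon
      push Not at hcon
      apply h0
      have : c = 0 := Finsupp.ext hcon
      rwa [← this]
    exact Finset.prod_eq_zero (Finset.mem_univ i) (zero_pow hi)⟩

lemma aug_X (h0 : (0 : Fin r →₀ ℕ) ∉ M) (i : Fin r) :
    aug k h0 (Ideal.Quotient.mk _ (X i)) = 0 :=
  aeval_X _ i

lemma sub_aug_nilpotent (h0 : (0 : Fin r →₀ ℕ) ∉ M) (hM : ∀ i, ∃ c, Finsupp.single i c ∈ M)
    (x : MvPolynomial (Fin r) k ⧸ monoIdeal k M) :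
    x - algebraMap k _ (aug k h0 x) ∈ nilradical (MvPolynomial (Fin r) k ⧸ monoIdeal k M) := by
  have h1 : Ideal.Quotient.mkₐ k (nilradical (MvPolynomial (Fin r) k ⧸ monoIdeal k M)) =
      (Algebra.ofId k _).comp (aug k h0) := by
    apply Ideal.Quotient.algHom_ext
    apply MvPolynomial.algHom_ext
    intro i
    have h2 : aug k h0 (Ideal.Quotient.mk _ (X i)) = 0 := aug_X k h0 i
    change Ideal.Quotient.mk _ (Ideal.Quotient.mk _ (X i)) =
      Algebra.ofId k _ (aug k h0 (Ideal.Quotient.mk _ (X i)))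
    rw [h2, map_zero, Ideal.Quotient.eq_zero_iff_mem, mem_nilradical]
    exact mk_X_nilpotent k hM i
  have h3 := DFunLike.congr_fun h1 x
  rw [← Ideal.Quotient.eq_zero_iff_mem, map_sub, sub_eq_zero]
  exact h3

lemma isLocal (h0 : (0 : Fin r →₀ ℕ) ∉ M) (hM : ∀ i, ∃ c, Finsupp.single i c ∈ M) :
    IsLocalRing (MvPolynomial (Fin r) k ⧸ monoIdeal k M) := by
  have h1 : IsLocalHom ((aug k h0 : (MvPolynomial (Fin r) k ⧸ monoIdeal k M) →ₐ[k] k) :
      (MvPolynomial (Fin r) k ⧸ monoIdeal k M) →+* k) := by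
    constructor
    intro x hx
    have hx' : aug k h0 x ≠ 0 := hx.ne_zero
    have h2 := sub_aug_nilpotent k h0 hM x
    have h3 : (1 : MvPolynomial (Fin r) k ⧸ monoIdeal k M) -
        x * algebraMap k _ (aug k h0 x)⁻¹ ∈
        nilradical (MvPolynomial (Fin r) k ⧸ monoIdeal k M) := by
      have h4 := (nilradical (MvPolynomial (Fin r) k ⧸ monoIdeal k M)).mul_mem_right
        (-algebraMap k _ (aug k h0 x)⁻¹) h2
      have h5 : (x - algebraMap k _ (aug k h0 x)) * (-algebraMap k _ (aug k h0 x)⁻¹) =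
          algebraMap k (MvPolynomial (Fin r) k ⧸ monoIdeal k M) (aug k h0 x) *
            algebraMap k _ (aug k h0 x)⁻¹ - x * algebraMap k _ (aug k h0 x)⁻¹ := by ring
      rw [h5, ← map_mul, mul_inv_cancel₀ hx', map_one] at h4
      exact h4
    have h6 : IsUnit (x * algebraMap k _ (aug k h0 x)⁻¹) := by
      have h7 := IsNilpotent.isUnit_one_sub (mem_nilradical.1 h3)
      rwa [sub_sub_cancel] at h7
    exact isUnit_of_mul_isUnit_left h6
  exact RingHom.domain_isLocalRing
    ((aug k h0 : (MvPolynomial (Fin r) k ⧸ monoIdeal k M) →ₐ[k] k) :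
      (MvPolynomial (Fin r) k ⧸ monoIdeal k M) →+* k)

lemma isArtinian (h0 : (0 : Fin r →₀ ℕ) ∉ M) (hM : ∀ i, ∃ c, Finsupp.single i c ∈ M) :
    IsArtinianRing (MvPolynomial (Fin r) k ⧸ monoIdeal k M) := by
  have h1 : Algebra.IsIntegral k (MvPolynomial (Fin r) k ⧸ monoIdeal k M) := by
    constructor
    intro x
    have h2 := mem_nilradical.1 (sub_aug_nilpotent k h0 hM x)
    obtain ⟨c, hc⟩ := h2
    have h3 : IsIntegral k (x - algebraMap k _ (aug k h0 x)) := by
      apply IsIntegral.of_pow (Nat.succ_pos c)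
      rw [pow_succ, hc, zero_mul]
      exact isIntegral_zero
    have h4 := h3.add (isIntegral_algebraMap (x := aug k h0 x))
    rwa [sub_add_cancel] at h4
  have h2 : Algebra.FiniteType k (MvPolynomial (Fin r) k ⧸ monoIdeal k M) := inferInstance
  have h3 : Module.Finite k (MvPolynomial (Fin r) k ⧸ monoIdeal k M) := Algebra.IsIntegral.finite
  exact IsArtinianRing.of_finite k _

lemma not_isField (h0 : (0 : Fin r →₀ ℕ) ∉ M) (hM : ∀ i, ∃ c, Finsupp.single i c ∈ M)
    (h1 : ∃ i, Finsupp.single i 1 ∉ M) :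
    ¬ IsField (MvPolynomial (Fin r) k ⧸ monoIdeal k M) := by
  intro hf
  obtain ⟨i, hi⟩ := h1
  have h2 : Ideal.Quotient.mk (monoIdeal k M) (X i) ≠ 0 := by
    intro h3
    rw [Ideal.Quotient.eq_zero_iff_mem, monoIdeal, mem_ideal_span_monomial_image] at h3
    obtain ⟨c, hc, hle⟩ := h3 (Finsupp.single i 1) (by
      rw [support_X]
      exact Finset.mem_singleton_self _)
    have h4 : ∀ j, j ≠ i → c j = 0 := by
      intro j hj
      have h5 := hle j
      rw [Finsupp.single_apply, if_neg (fun h => hj h.symm)] at h5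
      omega
    have h5 := hle i
    rw [Finsupp.single_eq_same] at h5
    rcases Nat.le_one_iff_eq_zero_or_eq_one.1 h5 with h6 | h6
    · apply h0
      have h7 : c = 0 := by
        ext j
        by_cases hj : j = i
        · subst hj
          exact h6
        · exact h4 j hj
      rwa [← h7]
    · apply hi
      have h7 : c = Finsupp.single i 1 := by
        ext j
        by_cases hj : j = i
        · subst hj
          rw [h6, Finsupp.single_eq_same]
        · rw [h4 j hj, Finsupp.single_apply, if_neg (fun h => hj h.symm)]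
      rwa [← h7]
  obtain ⟨y, hy⟩ := hf.mul_inv_cancel h2
  obtain ⟨c, hc⟩ := mk_X_nilpotent k hM i
  have h3 : (1 : MvPolynomial (Fin r) k ⧸ monoIdeal k M) = 0 := by
    rw [← one_pow c, ← hy, mul_pow, hc, zero_mul]
  have h4 := hf.exists_pair_ne
  obtain ⟨a, b, hab⟩ := h4
  apply hab
  rw [← mul_one a, ← mul_one b, h3, mul_zero, mul_zero]

lemma subsingleton_spec (h0 : (0 : Fin r →₀ ℕ) ∉ M) (hM : ∀ i, ∃ c, Finsupp.single i c ∈ M) :
    Subsingleton (PrimeSpectrum (MvPolynomial (Fin r) k ⧸ monoIdeal k M)) := by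
  have := isLocal k h0 hM
  have := isArtinian k h0 hM
  constructor
  intro P P'
  apply PrimeSpectrum.ext
  have h1 : P.asIdeal.IsMaximal := inferInstance
  have h2 : P'.asIdeal.IsMaximal := inferInstance
  rw [IsLocalRing.eq_maximalIdeal h1, IsLocalRing.eq_maximalIdeal h2]

end Pool.Agent.Y188.FP
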