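import Pool.Agent.Y188.FP.Core

open MvPolynomial Pool.Agent.Results.MP_94ed3e_ag.FatPoint

universe u

namespace Pool.Agent.Y188.FP

variable {r n : ℕ} (e : Fin r × Fin 3 ≃ Fin n) (Z : Set (Fin r → ℕ)) (m : ℕ)

/-- the grading: the variables `x_i = X (e (i, 0))`, `y_i = X (e (i, 1))`, `z_i = X (e (i, 2))`
have the degrees `(1, 0)`, `(0, 1)`, `(1, 1)` in the `i`-th factor `ℤ × ℤ` -/
def wt (s : Fin n) : Fin r → ℤ × ℤ :=
  Pi.single (e.symm s).1 ((![(1, 0), (0, 1), (1, 1)] : Fin 3 → ℤ × ℤ) (e.symm s).2)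

lemma weight_wt (u : Fin n →₀ ℕ) : Finsupp.weight (wt e) u =
    fun i => (((u (e (i, 0)) + u (e (i, 2)) : ℕ) : ℤ), ((u (e (i, 1)) + u (e (i, 2)) : ℕ) : ℤ)) := by
  rw [Finsupp.weight_eq_sum, ← e.sum_comp, Fintype.sum_prod_type]
  funext i
  rw [Finset.sum_apply, Finset.sum_eq_single i]
  · rw [Finset.sum_apply, Fin.sum_univ_three]
    simp [wt]
  · intro j _ hj
    rw [Finset.sum_apply, Fin.sum_univ_three]
    simp [wt, Pi.single_eq_of_ne hj.symm]
  · intro hi
    exact absurd (Finset.mem_univ i) hi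

lemma weight_eq_iff (u v : Fin n →₀ ℕ) : Finsupp.weight (wt e) u = Finsupp.weight (wt e) v ↔
    ∀ i, u (e (i, 0)) + u (e (i, 2)) = v (e (i, 0)) + v (e (i, 2)) ∧
      u (e (i, 1)) + u (e (i, 2)) = v (e (i, 1)) + v (e (i, 2)) := by
  rw [weight_wt, weight_wt, funext_iff]
  refine forall_congr' fun i => ?_
  rw [Prod.mk.injEq, Nat.cast_inj, Nat.cast_inj]

/-- the exponents of the `y_i` -/
def gam (u : Fin n →₀ ℕ) : Fin r → ℕ := fun i => u (e (i, 1))

/-- all second degrees are at most `m` -/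
def box (u : Fin n →₀ ℕ) : Prop := ∀ i, u (e (i, 1)) + u (e (i, 2)) ≤ m

/-- all first degrees are at least `m` -/
def big (u : Fin n →₀ ℕ) : Prop := ∀ i, m ≤ u (e (i, 0)) + u (e (i, 2))

/-- standard monomials -/
def std (u : Fin n →₀ ℕ) : Prop :=
  box e m u ∧ gam e u ∉ Z ∧ (big e m u → ∀ i, u (e (i, 1)) = 0)

/-- the Hilbert function: the number of standard monomials -/
noncomputable def hf (a : Fin r → ℤ × ℤ) : ℕ :=
  Nat.card {u : Fin n →₀ ℕ // Finsupp.weight (wt e) u = a ∧ std e Z m u}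

lemma finite_weight (a : Fin r → ℤ × ℤ) : {u : Fin n →₀ ℕ | Finsupp.weight (wt e) u = a}.Finite := by
  apply Set.Finite.subset (Set.finite_Iic (Finsupp.equivFunOnFinite.symm
    (fun s => ((a (e.symm s).1).1 + (a (e.symm s).1).2).toNat)))
  rintro u rfl
  rw [Set.mem_Iic]
  intro s
  obtain ⟨⟨i, j⟩, rfl⟩ := e.surjective s
  rw [weight_wt]
  simp only [Finsupp.equivFunOnFinite_symm_apply_apply, Equiv.symm_apply_apply]
  fin_cases j
  · simp only [Fin.zero_eta]
    omega
  · simp only [Fin.mk_one]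
    omega
  · simp only [Fin.reduceFinMk]
    omega

instance finite_std (a : Fin r → ℤ × ℤ) :
    Finite {u : Fin n →₀ ℕ // Finsupp.weight (wt e) u = a ∧ std e Z m u} :=
  (finite_weight e a).subset (fun _ hu => hu.1)

lemma box_congr {u v : Fin n →₀ ℕ} (h : Finsupp.weight (wt e) u = Finsupp.weight (wt e) v) :
    box e m u ↔ box e m v := by
  rw [weight_eq_iff] at h
  exact forall_congr' fun i => by rw [(h i).2]

lemma big_congr {u v : Fin n →₀ ℕ} (h : Finsupp.weight (wt e) u = Finsupp.weight (wt e) v) :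
    big e m u ↔ big e m v := by
  rw [weight_eq_iff] at h
  exact forall_congr' fun i => by rw [(h i).1]

/-- two exponents with the same weight and the same `y` part are equal -/
lemma eq_of_weight_gam {u v : Fin n →₀ ℕ}
    (h : Finsupp.weight (wt e) u = Finsupp.weight (wt e) v) (hg : gam e u = gam e v) : u = v := by
  rw [weight_eq_iff] at h
  ext s
  obtain ⟨⟨i, j⟩, rfl⟩ := e.surjective s
  have h1 := h i
  have h2 : u (e (i, 1)) = v (e (i, 1)) := congrFun hg i
  fin_cases j
  · simp only [Fin.zero_eta]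
    omega
  · simp only [Fin.mk_one]
    omega
  · simp only [Fin.reduceFinMk]
    omega

open Classical in
/-- replace every `x_i y_i` by `z_i` -/
noncomputable def raw (u : Fin n →₀ ℕ) : Fin n →₀ ℕ :=
  Finsupp.equivFunOnFinite.symm (fun s =>
    (![u (e ((e.symm s).1, 0)) - u (e ((e.symm s).1, 1)), 0,
      u (e ((e.symm s).1, 2)) + u (e ((e.symm s).1, 1))] : Fin 3 → ℕ) (e.symm s).2)

lemma raw_zero (u : Fin n →₀ ℕ) (i : Fin r) : raw e u (e (i, 0)) = u (e (i, 0)) - u (e (i, 1)) := by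
  simp [raw]

lemma raw_one (u : Fin n →₀ ℕ) (i : Fin r) : raw e u (e (i, 1)) = 0 := by
  simp [raw]

lemma raw_two (u : Fin n →₀ ℕ) (i : Fin r) : raw e u (e (i, 2)) = u (e (i, 2)) + u (e (i, 1)) := by
  simp [raw]

open Classical in
/-- the standard monomial of the same degree -/
noncomputable def sharp (u : Fin n →₀ ℕ) : Fin n →₀ ℕ :=
  if box e m u ∧ big e m u then raw e u else u

lemma le_of_box_big {u : Fin n →₀ ℕ} (h : box e m u) (h' : big e m u) (i : Fin r) :
    u (e (i, 1)) ≤ u (e (i, 0)) := by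
  have h1 := h i
  have h2 := h' i
  omega

lemma weight_raw {u : Fin n →₀ ℕ} (h : ∀ i, u (e (i, 1)) ≤ u (e (i, 0))) :
    Finsupp.weight (wt e) (raw e u) = Finsupp.weight (wt e) u := by
  rw [weight_eq_iff]
  intro i
  rw [raw_zero, raw_one, raw_two]
  have := h i
  omega

lemma weight_sharp (u : Fin n →₀ ℕ) :
    Finsupp.weight (wt e) (sharp e m u) = Finsupp.weight (wt e) u := by
  unfold sharp
  split_ifs with h
  · exact weight_raw e (le_of_box_big e m h.1 h.2)
  · rfl

variable {Z m}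

lemma sharp_of_std {u : Fin n →₀ ℕ} (h : std e Z m u) : sharp e m u = u := by
  unfold sharp
  split_ifs with h1
  · apply eq_of_weight_gam e (weight_raw e (le_of_box_big e m h1.1 h1.2))
    funext i
    change raw e u (e (i, 1)) = u (e (i, 1))
    rw [raw_one, h.2.2 h1.2 i]
  · rfl

lemma std_sharp (h0 : (0 : Fin r → ℕ) ∉ Z) {u : Fin n →₀ ℕ} (h1 : box e m u)
    (h2 : big e m u ∨ gam e u ∉ Z) : std e Z m (sharp e m u) := by
  refine ⟨(box_congr e m (weight_sharp e m u)).2 h1, ?_, ?_⟩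
  · unfold sharp
    split_ifs with h3
    · intro h4
      apply h0
      have : gam e (raw e u) = 0 := by
        funext i
        exact raw_one e u i
      rwa [this] at h4
    · rcases h2 with h2 | h2
      · exact absurd ⟨h1, h2⟩ h3
      · exact h2
  · intro h3 i
    have h4 := (big_congr e m (weight_sharp e m u)).1 h3
    unfold sharp
    rw [if_pos ⟨h1, h4⟩]
    exact raw_one e u i

open Classical in
variable (Z m) in
/-- the coefficient of a monomial -/
noncomputable def cf {T : Type u} [CommRing T] (b : Fin r → T) (u : Fin n →₀ ℕ) : T :=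
  if box e m u then (if big e m u then ∏ i, b i ^ u (e (i, 1)) else if gam e u ∈ Z then 0 else 1)
  else 0

lemma cf_of_std {T : Type u} [CommRing T] (b : Fin r → T) {u : Fin n →₀ ℕ} (h : std e Z m u) :
    cf e Z m b u = 1 := by
  unfold cf
  rw [if_pos h.1]
  split_ifs with h1 h2
  · apply Finset.prod_eq_one
    intro i _
    rw [h.2.2 h1 i, pow_zero]
  · exact absurd h2 h.2.1
  · rfl

lemma std_of_cf {T : Type u} [CommRing T] (h0 : (0 : Fin r → ℕ) ∉ Z) (b : Fin r → T)
    {u : Fin n →₀ ℕ} (h : cf e Z m b u ≠ 0) : std e Z m (sharp e m u) := by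
  unfold cf at h
  split_ifs at h with h1 h2 h3
  · exact std_sharp e h0 h1 (Or.inl h2)
  · exact absurd rfl h
  · exact std_sharp e h0 h1 (Or.inr h3)
  · exact absurd rfl h

variable (Z) in
/-- the set is closed under larger exponents -/
def UpZ : Prop := ∀ c ∈ Z, ∀ d : Fin r → ℕ, c ≤ d → d ∈ Z

variable (Z) in
/-- the monomial equations -/
def Eqs {T : Type u} [CommRing T] (b : Fin r → T) : Prop := ∀ c ∈ Z, ∏ i, b i ^ c i = 0

end Pool.Agent.Y188.FP
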