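import Pool.Agent.Y188.FP.Nf

open MvPolynomial Pool.Agent.Results.MP_94ed3e_ag.FatPoint

universe u

namespace Pool.Agent.Y188.FP

variable {r n : ℕ} (e : Fin r × Fin 3 ≃ Fin n) {Z : Set (Fin r → ℕ)} {m : ℕ}
  {T : Type u} [CommRing T]

/-- the exponent of one variable -/
noncomputable def sg (i : Fin r) (k : Fin 3) : Fin n →₀ ℕ := Finsupp.single (e (i, k)) 1

lemma sg_apply (i j : Fin r) (k l : Fin 3) :
    sg e i k (e (j, l)) = if i = j ∧ k = l then 1 else 0 := by
  rw [sg, Finsupp.single_apply]
  simp only [e.injective.eq_iff, Prod.mk.injEq]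

variable (m) in
/-- the exponent of the product of the `x_i ^ m` -/
noncomputable def kap : Fin n →₀ ℕ :=
  Finsupp.equivFunOnFinite.symm (fun s => if (e.symm s).2 = 0 then m else 0)

lemma kap_apply (j : Fin r) (l : Fin 3) : kap e m (e (j, l)) = if l = 0 then m else 0 := by
  simp [kap]

/-- equality of exponents, coordinatewise -/
lemma exp_ext {u v : Fin n →₀ ℕ} (h0 : ∀ i, u (e (i, 0)) = v (e (i, 0)))
    (h1 : ∀ i, u (e (i, 1)) = v (e (i, 1))) (h2 : ∀ i, u (e (i, 2)) = v (e (i, 2))) : u = v := by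
  ext s
  obtain ⟨⟨i, l⟩, rfl⟩ := e.surjective s
  fin_cases l
  · exact h0 i
  · exact h1 i
  · exact h2 i

lemma exp_le {u v : Fin n →₀ ℕ} (h0 : ∀ i, u (e (i, 0)) ≤ v (e (i, 0)))
    (h1 : ∀ i, u (e (i, 1)) ≤ v (e (i, 1))) (h2 : ∀ i, u (e (i, 2)) ≤ v (e (i, 2))) : u ≤ v := by
  intro s
  obtain ⟨⟨i, l⟩, rfl⟩ := e.surjective s
  fin_cases l
  · exact h0 i
  · exact h1 i
  · exact h2 i

/-- the exponent `x_1 ^ m ... x_r ^ m / x_i` -/
noncomputable def nu (m : ℕ) (i : Fin r) : Fin n →₀ ℕ := kap e m - sg e i 0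

lemma nu_add (hm : 1 ≤ m) (i : Fin r) : nu e m i + sg e i 0 = kap e m := by
  apply tsub_add_cancel_of_le
  apply exp_le e <;> intro j
  · rw [sg_apply, kap_apply]
    simp only [and_true, if_true]
    split_ifs <;> omega
  · rw [sg_apply, kap_apply]
    simp
  · rw [sg_apply, kap_apply]
    simp

lemma weight_sg (i : Fin r) : Finsupp.weight (wt e) (sg e i 0 + sg e i 1) =
    Finsupp.weight (wt e) (sg e i 2) := by
  rw [weight_eq_iff]
  intro j
  simp only [Finsupp.add_apply, sg_apply]
  by_cases h : i = j <;> simp [h]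

section Complete

variable {I : Ideal (MvPolynomial (Fin n) T)} (hI : I ∈ hilb (wt e) (hf e Z m) T)

include hI

lemma not_box_mem {u : Fin n →₀ ℕ} (hu : ¬ box e m u) : monomial u (1 : T) ∈ I := by
  apply monomial_mem_of_degree_zero hI
  have : IsEmpty {v : Fin n →₀ ℕ // Finsupp.weight (wt e) v = Finsupp.weight (wt e) u ∧
      std e Z m v} := ⟨fun v => hu ((box_congr e m v.2.1).1 v.2.2.1)⟩
  rw [hf, Nat.card_of_isEmpty]

lemma gam_mem {u : Fin n →₀ ℕ} (hu : gam e u ∈ Z) : monomial u (1 : T) ∈ I := by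
  let g : Fin n →₀ ℕ := Finsupp.equivFunOnFinite.symm (fun s => if (e.symm s).2 = 1 then u s else 0)
  have g0 : ∀ i, g (e (i, 0)) = 0 := fun i => by simp [g]
  have g1 : ∀ i, g (e (i, 1)) = u (e (i, 1)) := fun i => by simp [g]
  have g2 : ∀ i, g (e (i, 2)) = 0 := fun i => by simp [g]
  have hle : g ≤ u := by
    apply exp_le e <;> intro i
    · rw [g0]; omega
    · rw [g1]
    · rw [g2]; omega
  have h1 : monomial g (1 : T) ∈ I := by
    apply monomial_mem_of_degree_zero hI
    have : IsEmpty {v : Fin n →₀ ℕ // Finsupp.weight (wt e) v = Finsupp.weight (wt e) g ∧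
        std e Z m v} := ⟨fun v => by
      have h2 := (weight_eq_iff e _ _).1 v.2.1
      apply v.2.2.2.1
      have h3 : gam e v.1 = gam e u := by
        funext i
        have h4 := h2 i
        rw [g0, g1, g2] at h4
        change v.1 (e (i, 1)) = u (e (i, 1))
        omega
      rw [h3]
      exact hu⟩
    rw [hf, Nat.card_of_isEmpty]
  have h2 := mono_shift h1 (u - g)
  rwa [add_tsub_cancel_of_le hle] at h2

omit hI in
lemma hf_big (h0 : (0 : Fin r → ℕ) ∉ Z) {u : Fin n →₀ ℕ} (h1 : box e m u) (h2 : big e m u) :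
    hf e Z m (Finsupp.weight (wt e) u) = 1 := by
  rw [hf, Nat.card_eq_one_iff_unique]
  constructor
  · constructor
    intro v v'
    apply Subtype.ext
    apply eq_of_weight_gam e (v.2.1.trans v'.2.1.symm)
    funext i
    change v.1 (e (i, 1)) = v'.1 (e (i, 1))
    rw [v.2.2.2.2 ((big_congr e m v.2.1).2 h2) i, v'.2.2.2.2 ((big_congr e m v'.2.1).2 h2) i]
  · exact ⟨⟨sharp e m u, weight_sharp e m u, std_sharp e h0 h1 (Or.inl h2)⟩⟩

lemma kill_big (h0 : (0 : Fin r → ℕ) ∉ Z) {u : Fin n →₀ ℕ} (h1 : box e m u) (h2 : big e m u)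
    (c : T) (hc : ∀ v : Fin n →₀ ℕ, Finsupp.weight (wt e) v = Finsupp.weight (wt e) u →
      monomial v c ∈ I) : c = 0 :=
  kill hI (Finsupp.weight (wt e) u) (k := 0) (hf_big e h0 h1 h2) c hc

lemma cancel_big (h0 : (0 : Fin r → ℕ) ∉ Z) {u : Fin n →₀ ℕ} (h1 : box e m u) (h2 : big e m u)
    {F : MvPolynomial (Fin n) T}
    (hF : F ∈ weightedHomogeneousSubmodule T (wt e) (Finsupp.weight (wt e) u))
    (h : monomial (kap e m) (1 : T) * F ∈ I) : F ∈ I := by
  refine cancel hI (Finsupp.weight (wt e) u) (kap e m) ?_ ?_ hF h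
  · rw [← map_add, hf_big e h0 h1 h2, hf_big e h0 ?_ (big_add e h2)]
    intro i
    have h3 := h1 i
    simp only [Finsupp.add_apply, kap_apply]
    simpa using h3
  · intro v hv
    rw [← map_add, weight_eq_iff] at hv
    apply exp_le e <;> intro i
    · have h3 := hv i
      have h4 := h1 i
      have h5 := h2 i
      simp only [Finsupp.add_apply, kap_apply, if_true] at h3 ⊢
      simp only [Fin.isValue, one_ne_zero, if_false, show (2 : Fin 3) ≠ 0 by decide] at h3
      omega
    · rw [kap_apply]; simp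
    · rw [kap_apply]; simp

/-- nilpotency -/
lemma pow_zero_of_rel (h0 : (0 : Fin r → ℕ) ∉ Z) (hZ : UpZ Z) (hm : 1 ≤ m)
    (hmZ : ∀ i, Pi.single i m ∈ Z) (i : Fin r) (v0 v1 : T)
    (hv : monomial (nu e m i + (sg e i 0 + sg e i 1)) v0 + monomial (nu e m i + sg e i 2) v1 ∈ I) :
    v1 ^ m = 0 := by
  let D : Fin n →₀ ℕ := kap e m + (kap e m + m • sg e i 1)
  have D0 : ∀ j, D (e (j, 0)) = 2 * m := by
    intro j
    simp [D, kap_apply, sg_apply]
    omega
  have D1 : ∀ j, D (e (j, 1)) = if i = j then m else 0 := by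
    intro j
    simp [D, kap_apply, sg_apply]
  have D2 : ∀ j, D (e (j, 2)) = 0 := by
    intro j
    simp [D, kap_apply, sg_apply]
  have hbox : box e m D := by
    intro j
    rw [D1, D2]
    split_ifs <;> omega
  have hbig : big e m D := by
    intro j
    rw [D0, D2]
    omega
  have key : ∀ k : ℕ, ∀ u : Fin n →₀ ℕ, u (e (i, 2)) = k →
      Finsupp.weight (wt e) u = Finsupp.weight (wt e) D → monomial u (v1 ^ k) ∈ I := by
    intro k
    induction k with
    | zero =>
      intro u hu hw
      rw [pow_zero]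
      apply gam_mem e hI
      apply hZ _ (hmZ i)
      intro j
      by_cases hj : j = i
      · subst hj
        rw [Pi.single_eq_same]
        have h1 := (weight_eq_iff e _ _).1 hw j
        rw [D1, D2, if_pos rfl] at h1
        change m ≤ u (e (j, 1))
        omega
      · rw [Pi.single_eq_of_ne hj]
        exact Nat.zero_le _
    | succ k ih =>
      intro u hu hw
      have hwu := (weight_eq_iff e _ _).1 hw
      have hnu : ∀ j, nu e m i (e (j, 0)) ≤ m := by
        intro j
        have h1 := congrArg (fun f : Fin n →₀ ℕ => f (e (j, 0))) (nu_add e hm i)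
        simp only [Finsupp.add_apply, kap_apply, if_true] at h1
        omega
      have hnu1 : ∀ j, nu e m i (e (j, 1)) = 0 := by
        intro j
        have h1 := congrArg (fun f : Fin n →₀ ℕ => f (e (j, 1))) (nu_add e hm i)
        simp only [Finsupp.add_apply, kap_apply] at h1
        simp at h1
        exact h1.1
      have hnu2 : ∀ j, nu e m i (e (j, 2)) = 0 := by
        intro j
        have h1 := congrArg (fun f : Fin n →₀ ℕ => f (e (j, 2))) (nu_add e hm i)
        simp only [Finsupp.add_apply, kap_apply] at h1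
        simp at h1
        exact h1.1
      have hle : nu e m i + sg e i 2 ≤ u := by
        apply exp_le e <;> intro j
        · have h1 := hwu j
          have h2 := hnu j
          rw [D0, D1, D2] at h1
          rw [Finsupp.add_apply, sg_apply]
          simp only [Fin.isValue, show (2 : Fin 3) ≠ 0 by decide, and_false, if_false]
          split_ifs at h1 <;> omega
        · rw [Finsupp.add_apply, sg_apply, hnu1]
          simp
        · rw [Finsupp.add_apply, sg_apply, hnu2]
          by_cases hj : i = j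
          · subst hj
            simp only [and_self, if_true]
            omega
          · simp [hj]
      obtain ⟨s, hs⟩ : ∃ s, nu e m i + sg e i 2 + s = u := ⟨_, add_tsub_cancel_of_le hle⟩
      have h3 : Finsupp.weight (wt e) (nu e m i + (sg e i 0 + sg e i 1) + s) =
          Finsupp.weight (wt e) u := by
        rw [← hs, map_add, map_add, weight_sg, ← map_add, ← map_add]
      have h4 : (nu e m i + (sg e i 0 + sg e i 1) + s) (e (i, 2)) = k := by
        rw [← hs] at hu
        simp only [Finsupp.add_apply, sg_apply, hnu2] at hu ⊢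
        simp at hu ⊢
        omega
      have h5 := ih _ h4 (h3.trans hw)
      have h6 := I.mul_mem_right (monomial s (v1 ^ k)) hv
      rw [add_mul, monomial_mul, monomial_mul, hs] at h6
      have h7 : monomial (nu e m i + (sg e i 0 + sg e i 1) + s) (v0 * v1 ^ k) ∈ I := by
        have h8 := I.mul_mem_left (C v0) h5
        rwa [C_mul_monomial] at h8
      have h9 := I.sub_mem h6 h7
      rwa [add_sub_cancel_left, ← pow_succ'] at h9
  apply kill_big e hI h0 hbox hbig
  intro u hw
  have h1 := key _ u rfl hw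
  have h2 : u (e (i, 2)) ≤ m := by
    have h3 := (weight_eq_iff e _ _).1 hw i
    rw [D1, D2, if_pos rfl] at h3
    omega
  have h4 := I.mul_mem_left (C (v1 ^ (m - u (e (i, 2))))) h1
  rwa [C_mul_monomial, ← pow_add, Nat.sub_add_cancel h2] at h4

end Complete

end Pool.Agent.Y188.FP
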