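import Pool.Agent.Results.MP_94ed3e_ag.FatPoint

open MvPolynomial Pool.Agent.Results.MP_94ed3e_ag.FatPoint

universe u

namespace Pool.Agent.Y188.FP

section Gen

variable {A : Type} [AddCommGroup A] {n : ℕ} {w : Fin n → A} {h : A → ℕ} {T : Type u} [CommRing T]

/-- multiples of a monomial -/
lemma mono_mem {I : Ideal (MvPolynomial (Fin n) T)} {u : Fin n →₀ ℕ}
    (h : monomial u (1 : T) ∈ I) (t : T) : monomial u t ∈ I := by
  have : monomial u t = C t * monomial u (1 : T) := by
    rw [C_mul_monomial, mul_one]
  rw [this]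
  exact I.mul_mem_left _ h

lemma mono_shift {I : Ideal (MvPolynomial (Fin n) T)} {u : Fin n →₀ ℕ} {t : T}
    (h : monomial u t ∈ I) (s : Fin n →₀ ℕ) : monomial (u + s) t ∈ I := by
  have h1 := I.mul_mem_right (monomial s (1 : T)) h
  rwa [monomial_mul, mul_one] at h1

/-- an element which kills a piece of positive rank is zero -/
lemma kill {I : Ideal (MvPolynomial (Fin n) T)} (hI : I ∈ hilb w h T) (a : A) {k : ℕ}
    (ha : h a = k + 1) (c : T)
    (hc : ∀ u : Fin n →₀ ℕ, Finsupp.weight w u = a → monomial u c ∈ I) : c = 0 := by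
  have h1 := hI.2 a
  rw [ha] at h1
  apply h1.faithful
  intro q
  obtain ⟨⟨F, hF⟩, rfl⟩ := Submodule.mkQ_surjective _ q
  rw [← map_smul, Submodule.mkQ_apply, Submodule.Quotient.mk_eq_zero, Submodule.mem_comap,
    Submodule.restrictScalars_mem]
  change c • F ∈ I
  rw [F.as_sum, Finset.smul_sum]
  apply I.sum_mem
  intro u hu
  have hw : Finsupp.weight w u = a := hF (mem_support_iff.1 hu)
  have h2 : c • monomial u (coeff u F) = C (coeff u F) * monomial u c := by
    rw [smul_monomial, C_mul_monomial, smul_eq_mul, mul_comm]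
  rw [h2]
  exact I.mul_mem_left _ (hc u hw)

/-- multiplication by a monomial is injective between pieces of equal rank if it is surjective -/
lemma cancel {I : Ideal (MvPolynomial (Fin n) T)} (hI : I ∈ hilb w h T) (a : A)
    (κ : Fin n →₀ ℕ) (hh : h (Finsupp.weight w κ + a) = h a)
    (hdiv : ∀ u : Fin n →₀ ℕ, Finsupp.weight w u = Finsupp.weight w κ + a → κ ≤ u)
    {F : MvPolynomial (Fin n) T} (hF : F ∈ weightedHomogeneousSubmodule T w a)
    (hκ : monomial κ (1 : T) * F ∈ I) : F ∈ I := by
  let f0 : weightedHomogeneousSubmodule T w a →ₗ[T]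
      weightedHomogeneousSubmodule T w (Finsupp.weight w κ + a) :=
    LinearMap.codRestrict _ (LinearMap.mulLeft T (monomial κ (1 : T)) ∘ₗ
      (weightedHomogeneousSubmodule T w a).subtype) (by
      intro G
      exact IsWeightedHomogeneous.mul (isWeightedHomogeneous_monomial _ _ _ rfl) G.2)
  let f : GradedPiece w I a →ₗ[T] GradedPiece w I (Finsupp.weight w κ + a) :=
    Submodule.mapQ _ _ f0 (by
      intro G hG
      exact I.mul_mem_left _ hG)
  have hsurj : Function.Surjective f := by
    intro q
    obtain ⟨⟨G, hG⟩, rfl⟩ := Submodule.mkQ_surjective _ q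
    have key : ∀ u ∈ G.support, ∃ H ∈ weightedHomogeneousSubmodule T w a,
        monomial κ (1 : T) * H = monomial u (coeff u G) := by
      intro u hu
      have hw : Finsupp.weight w u = Finsupp.weight w κ + a := hG (mem_support_iff.1 hu)
      have hle := hdiv u hw
      refine ⟨monomial (u - κ) (coeff u G), ?_, ?_⟩
      · apply isWeightedHomogeneous_monomial
        have h1 : Finsupp.weight w (κ + (u - κ)) = Finsupp.weight w κ + a := by
          rw [add_tsub_cancel_of_le hle, hw]
        rw [map_add] at h1
        exact add_left_cancel h1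
      · rw [monomial_mul, one_mul, add_tsub_cancel_of_le hle]
    choose! H hH1 hH2 using key
    refine ⟨Submodule.Quotient.mk ⟨∑ u ∈ G.support, H u, Submodule.sum_mem _ hH1⟩, ?_⟩
    change Submodule.Quotient.mk (f0 _) = Submodule.Quotient.mk _
    congr 1
    apply Subtype.ext
    change monomial κ (1 : T) * ∑ u ∈ G.support, H u = G
    rw [Finset.mul_sum, Finset.sum_congr rfl hH2, ← G.as_sum]
  have hinj := LocallyFreeOfRank.injective_of_surjective (hI.2 a) (hh ▸ hI.2 _) f hsurj
  have h1 : (Submodule.Quotient.mk (⟨F, hF⟩ : weightedHomogeneousSubmodule T w a) :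
      GradedPiece w I a) = 0 := by
    apply hinj
    rw [map_zero]
    exact (Submodule.Quotient.mk_eq_zero _).2 hκ
  have h2 := (Submodule.Quotient.mk_eq_zero ((I.restrictScalars T).comap
    (weightedHomogeneousSubmodule T w a).subtype)).1 h1
  exact h2

/-- generators of a piece whose number is the rank are independent -/
lemma indep {I : Ideal (MvPolynomial (Fin n) T)} (hI : I ∈ hilb w h T) (a : A)
    {β : Type} [Fintype β] (m : β → (Fin n →₀ ℕ)) (hm : ∀ i, Finsupp.weight w (m i) = a)
    (hcard : h a = Fintype.card β)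
    (hgen : ∀ F ∈ weightedHomogeneousSubmodule T w a, ∃ t : β → T,
      F - ∑ i, monomial (m i) (t i) ∈ I)
    (t : β → T) (ht : ∑ i, monomial (m i) (t i) ∈ I) : t = 0 := by
  classical
  let f0 : (β → T) →ₗ[T] weightedHomogeneousSubmodule T w a :=
    LinearMap.codRestrict _ (Fintype.linearCombination T (fun i => monomial (m i) (1 : T))) (by
      intro t
      rw [Fintype.linearCombination_apply]
      apply Submodule.sum_mem
      intro i _
      apply Submodule.smul_mem
      exact isWeightedHomogeneous_monomial _ _ _ (hm i))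
  have hf0 : ∀ t, (f0 t : MvPolynomial (Fin n) T) = ∑ i, monomial (m i) (t i) := by
    intro t
    change Fintype.linearCombination T (fun i => monomial (m i) (1 : T)) t = _
    rw [Fintype.linearCombination_apply]
    simp only [smul_monomial, smul_eq_mul, mul_one]
  let f : (β → T) →ₗ[T] GradedPiece w I a := (Submodule.mkQ _) ∘ₗ f0
  have hsurj : Function.Surjective f := by
    intro q
    obtain ⟨⟨F, hF⟩, rfl⟩ := Submodule.mkQ_surjective _ q
    obtain ⟨t, ht⟩ := hgen F hF
    refine ⟨t, ?_⟩
    symm
    change (Submodule.Quotient.mk _ : GradedPiece w I a) = Submodule.Quotient.mk _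
    rw [Submodule.Quotient.eq]
    change F - (f0 t : MvPolynomial (Fin n) T) ∈ I
    rw [hf0]
    exact ht
  have hfree : LocallyFreeOfRank T (β → T) (h a) := by
    refine ⟨inferInstance, inferInstance, fun p => ?_⟩
    have : Nontrivial T := p.nontrivial
    rw [Module.rankAtStalk_eq_finrank_of_free, Pi.natCast_apply,
      Module.finrank_fintype_fun_eq_card, hcard]
    simp
  have hinj := LocallyFreeOfRank.injective_of_surjective hfree (hI.2 a) f hsurj
  apply hinj
  rw [map_zero]
  change (Submodule.Quotient.mk (f0 t) : GradedPiece w I a) = 0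
  rw [Submodule.Quotient.mk_eq_zero]
  change (f0 t : MvPolynomial (Fin n) T) ∈ I
  rw [hf0]
  exact ht

end Gen

end Pool.Agent.Y188.FP
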