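import Pool.Agent.Y188.FP.Comp

open MvPolynomial Pool.Agent.Results.MP_94ed3e_ag.FatPoint

universe u

namespace Pool.Agent.Y188.FP

variable {r n : ℕ} (e : Fin r × Fin 3 ≃ Fin n) {Z : Set (Fin r → ℕ)} {m : ℕ}
  {T : Type u} [CommRing T]

lemma nu_zero (hm : 1 ≤ m) (i j : Fin r) :
    nu e m i (e (j, 0)) + (if i = j then 1 else 0) = m := by
  have h1 := congrArg (fun f : Fin n →₀ ℕ => f (e (j, 0))) (nu_add e hm i)
  simp only [Finsupp.add_apply, kap_apply, if_true, sg_apply, and_true] at h1
  exact h1

lemma nu_one (hm : 1 ≤ m) (i j : Fin r) : nu e m i (e (j, 1)) = 0 := by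
  have h1 := congrArg (fun f : Fin n →₀ ℕ => f (e (j, 1))) (nu_add e hm i)
  simp only [Finsupp.add_apply, kap_apply] at h1
  simp at h1
  exact h1.1

lemma nu_two (hm : 1 ≤ m) (i j : Fin r) : nu e m i (e (j, 2)) = 0 := by
  have h1 := congrArg (fun f : Fin n →₀ ℕ => f (e (j, 2))) (nu_add e hm i)
  simp only [Finsupp.add_apply, kap_apply] at h1
  simp at h1
  exact h1.1

/-- first exponent of the relation -/
noncomputable def E1 (m : ℕ) (i : Fin r) : Fin n →₀ ℕ := nu e m i + (sg e i 0 + sg e i 1)

/-- second exponent of the relation -/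
noncomputable def E2 (m : ℕ) (i : Fin r) : Fin n →₀ ℕ := nu e m i + sg e i 2

lemma weight_E12 (i : Fin r) : Finsupp.weight (wt e) (E1 e m i) =
    Finsupp.weight (wt e) (E2 e m i) := by
  rw [E1, E2, map_add, map_add _ _ (sg e i 2), weight_sg]

lemma E1_zero (hm : 1 ≤ m) (i j : Fin r) : E1 e m i (e (j, 0)) = m := by
  rw [E1, Finsupp.add_apply, Finsupp.add_apply, sg_apply, sg_apply]
  have := nu_zero e hm i j
  simp
  omega

lemma E1_one (hm : 1 ≤ m) (i j : Fin r) : E1 e m i (e (j, 1)) = if i = j then 1 else 0 := by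
  rw [E1, Finsupp.add_apply, Finsupp.add_apply, sg_apply, sg_apply, nu_one e hm]
  simp

lemma E1_two (hm : 1 ≤ m) (i j : Fin r) : E1 e m i (e (j, 2)) = 0 := by
  rw [E1, Finsupp.add_apply, Finsupp.add_apply, sg_apply, sg_apply, nu_two e hm]
  simp

lemma E2_one (hm : 1 ≤ m) (i j : Fin r) : E2 e m i (e (j, 1)) = 0 := by
  rw [E2, Finsupp.add_apply, sg_apply, nu_one e hm]
  simp

lemma E2_two (hm : 1 ≤ m) (i j : Fin r) : E2 e m i (e (j, 2)) = if i = j then 1 else 0 := by
  rw [E2, Finsupp.add_apply, sg_apply, nu_two e hm]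
  simp

lemma box_E1 (hm : 1 ≤ m) (i : Fin r) : box e m (E1 e m i) := by
  intro j
  rw [E1_one e hm, E1_two e hm]
  split_ifs <;> omega

lemma big_E1 (hm : 1 ≤ m) (i : Fin r) : big e m (E1 e m i) := by
  intro j
  rw [E1_zero e hm]
  omega

lemma sharp_E1 (hm : 1 ≤ m) (i : Fin r) : sharp e m (E1 e m i) = E2 e m i := by
  apply eq_of_weight_gam e
  · rw [weight_sharp, weight_E12]
  · funext j
    change sharp e m (E1 e m i) (e (j, 1)) = E2 e m i (e (j, 1))
    rw [sharp, if_pos ⟨box_E1 e hm i, big_E1 e hm i⟩, raw_one, E2_one e hm]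

lemma prod_boole (b : Fin r → T) (i : Fin r) :
    ∏ j, b j ^ (if i = j then 1 else 0) = b i := by
  rw [Finset.prod_eq_single i]
  · rw [if_pos rfl, pow_one]
  · intro j _ hj
    rw [if_neg (fun h => hj h.symm), pow_zero]
  · intro hi
    exact absurd (Finset.mem_univ i) hi

lemma cf_E1 (hm : 1 ≤ m) (b : Fin r → T) (i : Fin r) : cf e Z m b (E1 e m i) = b i := by
  rw [cf, if_pos (box_E1 e hm i), if_pos (big_E1 e hm i)]
  simp only [E1_one e hm]
  exact prod_boole b i

lemma std_E2 (h0 : (0 : Fin r → ℕ) ∉ Z) (hm : 1 ≤ m) (i : Fin r) : std e Z m (E2 e m i) := by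
  rw [← sharp_E1 e hm]
  exact std_sharp e h0 (box_E1 e hm i) (Or.inl (big_E1 e hm i))

/-- the parameter is determined by the ideal -/
lemma idl_injective (hm : 1 ≤ m) (h0 : (0 : Fin r → ℕ) ∉ Z) (hZ : UpZ Z) {b b' : Fin r → T}
    (hb : Eqs Z b) (hb' : Eqs Z b') (h : idl e (m := m) hZ hb = idl e (m := m) hZ hb') :
    b = b' := by
  funext i
  have h1 := sub_NF_mem e (m := m) hZ h0 hb (E1 e m i)
  rw [h, mem_idl, map_sub, NF_monomial, sharp_E1 e hm, cf_E1 e hm, cf_E1 e hm,
    NF_std e b' (std_E2 e h0 hm i), mul_one] at h1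
  have h2 := congrArg (coeff (E2 e m i)) h1
  rw [coeff_sub, coeff_monomial, coeff_monomial, if_pos rfl, if_pos rfl, coeff_zero,
    sub_eq_zero] at h2
  exact h2.symm

section Complete

variable {I : Ideal (MvPolynomial (Fin n) T)} (hI : I ∈ hilb (wt e) (hf e Z m) T)

include hI

/-- the parameter of an ideal -/
lemma exists_param (h0 : (0 : Fin r → ℕ) ∉ Z) (hZ : UpZ Z) (hm : 1 ≤ m)
    (hmZ : ∀ i, Pi.single i m ∈ Z) (i : Fin r) :
    ∃ b : T, b ^ m = 0 ∧ monomial (E1 e m i) (1 : T) - monomial (E2 e m i) b ∈ I := by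
  have hwt : ∀ j, Finsupp.weight (wt e) (![E1 e m i, E2 e m i] j) =
      Finsupp.weight (wt e) (E1 e m i) := by
    intro j
    fin_cases j
    · rfl
    · exact (weight_E12 e i).symm
  have h1 : LocallyFreeOfRank T ((Fin 2 → T) ⧸ rel I ![E1 e m i, E2 e m i]) 1 := by
    rw [← hf_big e h0 (box_E1 e hm i) (big_E1 e hm i)]
    apply rel_rank hI _ _ hwt
    intro u hu
    left
    have h2 := (weight_eq_iff e _ _).1 hu
    by_cases h3 : u (e (i, 1)) = 0
    · refine ⟨1, ?_⟩
      apply eq_of_weight_gam e
      · exact (hwt 1).trans hu.symm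
      · funext j
        change E2 e m i (e (j, 1)) = u (e (j, 1))
        rw [E2_one e hm]
        have h4 := (h2 j).2
        rw [E1_one e hm, E1_two e hm] at h4
        split_ifs at h4 with h5
        · subst h5
          exact h3.symm
        · omega
    · refine ⟨0, ?_⟩
      apply eq_of_weight_gam e
      · exact (hwt 0).trans hu.symm
      · funext j
        change E1 e m i (e (j, 1)) = u (e (j, 1))
        rw [E1_one e hm]
        have h4 := (h2 j).2
        rw [E1_one e hm, E1_two e hm] at h4
        split_ifs at h4 ⊢ with h5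
        · subst h5
          omega
        · omega
  have hmem : ∀ v : Fin 2 → T, v ∈ rel I ![E1 e m i, E2 e m i] ↔
      monomial (E1 e m i) (v 0) + monomial (E2 e m i) (v 1) ∈ I := by
    intro v
    rw [mem_rel, Fin.sum_univ_two]
    rfl
  obtain ⟨v, hv, v', hv', hone⟩ := exists_entries h1
  rw [hmem] at hv hv'
  have h2 : v' 1 ^ m = 0 := pow_zero_of_rel e hI h0 hZ hm hmZ i _ _ hv'
  have h3 : v 1 ^ m = 0 := pow_zero_of_rel e hI h0 hZ hm hmZ i _ _ hv
  have h4 : IsUnit (v 0) := by
    have h5 : v 0 = 1 - v' 1 := by rw [← hone]; ring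
    rw [h5]
    exact IsNilpotent.isUnit_one_sub ⟨m, h2⟩
  obtain ⟨c, hc⟩ := h4.exists_left_inv
  refine ⟨-(c * v 1), ?_, ?_⟩
  · rw [neg_pow, mul_pow, h3, mul_zero, mul_zero]
  · have h6 := I.mul_mem_left (C c) hv
    rw [mul_add, C_mul_monomial, C_mul_monomial, hc] at h6
    rw [map_neg, sub_neg_eq_add]
    exact h6

omit hI in
lemma reduce {b : Fin r → T} (hm : 1 ≤ m)
    (hb : ∀ i, monomial (E1 e m i) (1 : T) - monomial (E2 e m i) (b i) ∈ I) :
    ∀ (N : ℕ) (u : Fin n →₀ ℕ), ∑ i, u (e (i, 1)) = N → (∀ i, u (e (i, 1)) ≤ u (e (i, 0))) →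
      monomial (kap e m + u) (1 : T) -
        monomial (kap e m + raw e u) (∏ i, b i ^ u (e (i, 1))) ∈ I := by
  intro N
  induction N with
  | zero =>
    intro u hu hle
    have h1 : ∀ i, u (e (i, 1)) = 0 := by
      intro i
      exact (Finset.sum_eq_zero_iff.1 hu) i (Finset.mem_univ i)
    have h2 : raw e u = u := by
      apply eq_of_weight_gam e (weight_raw e hle)
      funext i
      change raw e u (e (i, 1)) = u (e (i, 1))
      rw [raw_one, h1]
    have h3 : ∏ i, b i ^ u (e (i, 1)) = 1 := by
      apply Finset.prod_eq_one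
      intro i _
      rw [h1, pow_zero]
    rw [h2, h3, sub_self]
    exact I.zero_mem
  | succ N ih =>
    intro u hu hle
    obtain ⟨i, hi⟩ : ∃ i, u (e (i, 1)) ≠ 0 := by
      by_contra hcon
      push Not at hcon
      rw [Finset.sum_eq_zero (fun i _ => hcon i)] at hu
      omega
    have hle2 : sg e i 0 + sg e i 1 ≤ u := by
      have h1 := hle i
      apply exp_le e <;> intro j
      · rw [Finsupp.add_apply, sg_apply, sg_apply]
        by_cases hj : i = j
        · subst hj
          simp
          omega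
        · simp [hj]
      · rw [Finsupp.add_apply, sg_apply, sg_apply]
        by_cases hj : i = j
        · subst hj
          simp
          omega
        · simp [hj]
      · rw [Finsupp.add_apply, sg_apply, sg_apply]
        simp
    obtain ⟨s, hs⟩ : ∃ s, sg e i 0 + sg e i 1 + s = u := ⟨_, add_tsub_cancel_of_le hle2⟩
    have hw : Finsupp.weight (wt e) (sg e i 2 + s) = Finsupp.weight (wt e) u := by
      rw [← hs, map_add, ← weight_sg, ← map_add]
    have hs1 : ∀ j, u (e (j, 1)) = (sg e i 2 + s) (e (j, 1)) + (if i = j then 1 else 0) := by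
      intro j
      rw [← hs]
      simp only [Finsupp.add_apply, sg_apply]
      simp
      omega
    have hs0 : ∀ j, u (e (j, 0)) = (sg e i 2 + s) (e (j, 0)) + (if i = j then 1 else 0) := by
      intro j
      rw [← hs]
      simp only [Finsupp.add_apply, sg_apply]
      simp
      omega
    have hle' : ∀ j, (sg e i 2 + s) (e (j, 1)) ≤ (sg e i 2 + s) (e (j, 0)) := by
      intro j
      have h1 := hs1 j
      have h2 := hs0 j
      have h3 := hle j
      omega
    have hsum : ∑ j, (sg e i 2 + s) (e (j, 1)) = N := by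
      have h1 : ∑ j, u (e (j, 1)) = ∑ j, (sg e i 2 + s) (e (j, 1)) + 1 := by
        rw [Finset.sum_congr rfl (fun j _ => hs1 j), Finset.sum_add_distrib,
          Finset.sum_ite_eq, if_pos (Finset.mem_univ i)]
      omega
    have h1 := ih _ hsum hle'
    have hraw : raw e (sg e i 2 + s) = raw e u := by
      apply eq_of_weight_gam e
      · rw [weight_raw e hle, weight_raw e hle', hw]
      · funext j
        change raw e _ (e (j, 1)) = raw e _ (e (j, 1))
        rw [raw_one, raw_one]
    rw [hraw] at h1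
    have hprod : ∏ j, b j ^ u (e (j, 1)) = b i * ∏ j, b j ^ (sg e i 2 + s) (e (j, 1)) := by
      rw [Finset.prod_congr rfl (fun j _ => by rw [hs1 j, pow_add]), Finset.prod_mul_distrib,
        prod_boole, mul_comm]
    have h2 := I.mul_mem_left (C (b i)) h1
    rw [mul_sub, C_mul_monomial, C_mul_monomial, mul_one, ← hprod] at h2
    have h3 := I.mul_mem_right (monomial (sg e i 0 + s) (1 : T)) (hb i)
    rw [sub_mul, monomial_mul, monomial_mul, mul_one, mul_one] at h3
    have e1 : E1 e m i + (sg e i 0 + s) = kap e m + u := by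
      rw [E1, ← nu_add e hm i, ← hs]
      abel
    have e2 : E2 e m i + (sg e i 0 + s) = kap e m + (sg e i 2 + s) := by
      rw [E2, ← nu_add e hm i]
      abel
    rw [e1, e2] at h3
    have h4 := I.add_mem h3 h2
    rwa [sub_add_sub_cancel] at h4

/-- completeness -/
theorem complete (h0 : (0 : Fin r → ℕ) ∉ Z) (hZ : UpZ Z) (hm : 1 ≤ m)
    (hmZ : ∀ i, Pi.single i m ∈ Z) :
    ∃ (b : Fin r → T) (hb : Eqs Z b), idl e (m := m) hZ hb = I := by
  choose b hbm hbrel using exists_param e hI h0 hZ hm hmZ
  have red : ∀ u : Fin n →₀ ℕ, box e m u → big e m u →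
      monomial u (1 : T) - monomial (raw e u) (∏ i, b i ^ u (e (i, 1))) ∈ I := by
    intro u h1 h2
    apply cancel_big e hI h0 h1 h2
    · apply Submodule.sub_mem
      · exact isWeightedHomogeneous_monomial _ _ _ rfl
      · exact isWeightedHomogeneous_monomial _ _ _ (weight_raw e (le_of_box_big e m h1 h2))
    · rw [mul_sub, monomial_mul, monomial_mul, one_mul, one_mul]
      exact reduce e hm hbrel _ u rfl (le_of_box_big e m h1 h2)
  have hb : Eqs Z b := by
    intro c hc
    by_cases hcm : ∀ i, c i ≤ m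
    · let u : Fin n →₀ ℕ := Finsupp.equivFunOnFinite.symm
        (fun s => if (e.symm s).2 = 0 then m else if (e.symm s).2 = 1 then c (e.symm s).1 else 0)
      have u0 : ∀ i, u (e (i, 0)) = m := fun i => by simp [u]
      have u1 : ∀ i, u (e (i, 1)) = c i := fun i => by simp [u]
      have u2 : ∀ i, u (e (i, 2)) = 0 := fun i => by simp [u]
      have h1 : box e m u := fun i => by rw [u1, u2]; exact hcm i
      have h2 : big e m u := fun i => by rw [u0]; omega
      have h3 : monomial u (1 : T) ∈ I := by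
        apply gam_mem e hI
        have : gam e u = c := funext u1
        rwa [this]
      have h4 := red u h1 h2
      have h5 : monomial (raw e u) (∏ i, b i ^ c i) ∈ I := by
        have h6 := I.sub_mem h3 h4
        rw [sub_sub_cancel] at h6
        simp only [u1] at h6
        exact h6
      apply kill_big e hI h0 h1 h2
      intro v hv
      have h1' := (box_congr e m hv).2 h1
      have h2' := (big_congr e m hv).2 h2
      have hraw : raw e v = raw e u := by
        apply eq_of_weight_gam e
        · rw [weight_raw e (le_of_box_big e m h1 h2), weight_raw e (le_of_box_big e m h1' h2'), hv]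
        · funext j
          change raw e _ (e (j, 1)) = raw e _ (e (j, 1))
          rw [raw_one, raw_one]
      have h7 := I.mul_mem_left (C (∏ i, b i ^ c i)) (red v h1' h2')
      have h8 := I.mul_mem_left (C (∏ i, b i ^ v (e (i, 1)))) h5
      rw [mul_sub, C_mul_monomial, C_mul_monomial, mul_one, hraw] at h7
      rw [C_mul_monomial, mul_comm (∏ i, b i ^ v (e (i, 1)))] at h8
      have h9 := I.add_mem h7 h8
      rwa [sub_add_cancel] at h9
    · push Not at hcm
      obtain ⟨i, hi⟩ := hcm
      apply Finset.prod_eq_zero (Finset.mem_univ i)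
      obtain ⟨k, hk⟩ := Nat.exists_eq_add_of_lt hi
      rw [hk, pow_add, pow_add, hbm, zero_mul, zero_mul]
  refine ⟨b, hb, ?_⟩
  refine eq_of_le_of_mem_hilb (idl_mem_hilb e hZ h0 hb) hI ?_
  intro F hF
  rw [mem_idl] at hF
  have hsub : F - NF e Z m b F ∈ I := by
    have h1 : F - NF e Z m b F = ∑ u ∈ F.support, C (coeff u F) *
        (monomial u (1 : T) - monomial (sharp e m u) (cf e Z m b u)) := by
      have h2 : NF e Z m b F = ∑ u ∈ F.support,
          monomial (sharp e m u) (cf e Z m b u * coeff u F) := by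
        conv_lhs => rw [F.as_sum]
        rw [map_sum]
        exact Finset.sum_congr rfl fun u _ => NF_monomial e Z m _ u _
      have h3 : ∀ u ∈ F.support, C (coeff u F) *
          (monomial u (1 : T) - monomial (sharp e m u) (cf e Z m b u)) =
          monomial u (coeff u F) - monomial (sharp e m u) (cf e Z m b u * coeff u F) := by
        intro u _
        rw [mul_sub, C_mul_monomial, C_mul_monomial, mul_one, mul_comm (cf e Z m b u)]
      rw [h2, Finset.sum_congr rfl h3, Finset.sum_sub_distrib, ← F.as_sum]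
    rw [h1]
    apply I.sum_mem
    intro u _
    apply I.mul_mem_left
    by_cases h3 : box e m u
    · by_cases h4 : big e m u
      · rw [sharp, if_pos ⟨h3, h4⟩, cf, if_pos h3, if_pos h4]
        exact red u h3 h4
      · by_cases h5 : gam e u ∈ Z
        · rw [cf, if_pos h3, if_neg h4, if_pos h5, map_zero, sub_zero]
          exact gam_mem e hI h5
        · rw [sharp, if_neg (fun h => h4 h.2), cf, if_pos h3, if_neg h4, if_neg h5, sub_self]
          exact I.zero_mem
    · rw [cf, if_neg h3, map_zero, sub_zero]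
      exact not_box_mem e hI h3
  rwa [hF, sub_zero] at hsub

end Complete

end Pool.Agent.Y188.FP
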