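import Pool.Agent.Y188.FP.Comb

open MvPolynomial Pool.Agent.Results.MP_94ed3e_ag.FatPoint

universe u

namespace Pool.Agent.Y188.FP

variable {r n : ℕ} (e : Fin r × Fin 3 ≃ Fin n) (Z : Set (Fin r → ℕ)) (m : ℕ)
  {T : Type u} [CommRing T]

/-- the normal form -/
noncomputable def NF (b : Fin r → T) : MvPolynomial (Fin n) T →ₗ[T] MvPolynomial (Fin n) T :=
  (basisMonomials (Fin n) T).constr T (fun u => monomial (sharp e m u) (cf e Z m b u))

lemma NF_monomial (b : Fin r → T) (u : Fin n →₀ ℕ) (t : T) :
    NF e Z m b (monomial u t) = monomial (sharp e m u) (cf e Z m b u * t) := by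
  have h1 : monomial u t = t • basisMonomials (Fin n) T u := by
    rw [coe_basisMonomials, smul_monomial, smul_eq_mul, mul_one]
  rw [h1, map_smul, NF, Module.Basis.constr_basis, smul_monomial, smul_eq_mul, mul_comm]

lemma lin_ext {M : Type*} [AddCommGroup M] [Module T M]
    {f g : MvPolynomial (Fin n) T →ₗ[T] M}
    (h : ∀ u t, f (monomial u t) = g (monomial u t)) (F : MvPolynomial (Fin n) T) : f F = g F := by
  rw [F.as_sum, map_sum, map_sum]
  exact Finset.sum_congr rfl fun u _ => h u _

variable {Z m}

lemma NF_std (b : Fin r → T) {u : Fin n →₀ ℕ} (hu : std e Z m u) (t : T) :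
    NF e Z m b (monomial u t) = monomial u t := by
  rw [NF_monomial, sharp_of_std e hu, cf_of_std e b hu, one_mul]

lemma box_of_add {s u : Fin n →₀ ℕ} (h : box e m (s + u)) : box e m u := by
  intro i
  have := h i
  simp only [Finsupp.add_apply] at this
  omega

lemma big_add {s u : Fin n →₀ ℕ} (h : big e m u) : big e m (s + u) := by
  intro i
  have := h i
  simp only [Finsupp.add_apply]
  omega

lemma gam_add {s u : Fin n →₀ ℕ} (hZ : UpZ Z) (h : gam e u ∈ Z) : gam e (s + u) ∈ Z := by
  apply hZ _ h
  intro i
  simp only [gam, Finsupp.add_apply]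
  omega

lemma key_step (hZ : UpZ Z) {b : Fin r → T} (hb : Eqs Z b) (s u : Fin n →₀ ℕ) (t : T) :
    monomial (sharp e m (s + u)) (cf e Z m b (s + u) * t) =
      monomial (sharp e m (s + sharp e m u)) (cf e Z m b (s + sharp e m u) *
        (cf e Z m b u * t)) := by
  have hw : Finsupp.weight (wt e) (s + sharp e m u) = Finsupp.weight (wt e) (s + u) := by
    rw [map_add, map_add, weight_sharp]
  by_cases hbox : box e m (s + u)
  · have hbu := box_of_add e hbox
    by_cases hbig : big e m u
    · have hbig' : big e m (s + u) := big_add e hbig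
      have e1 : sharp e m (s + u) = raw e (s + u) := if_pos ⟨hbox, hbig'⟩
      have e2 : sharp e m u = raw e u := if_pos ⟨hbu, hbig⟩
      have hbox2 : box e m (s + sharp e m u) := (box_congr e m hw).2 hbox
      have hbig2 : big e m (s + sharp e m u) := (big_congr e m hw).2 hbig'
      have e3 : sharp e m (s + sharp e m u) = raw e (s + sharp e m u) := if_pos ⟨hbox2, hbig2⟩
      have e4 : raw e (s + sharp e m u) = raw e (s + u) := by
        apply eq_of_weight_gam e
        · rw [weight_raw e (le_of_box_big e m hbox2 hbig2),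
            weight_raw e (le_of_box_big e m hbox hbig'), hw]
        · funext i
          change raw e _ (e (i, 1)) = raw e _ (e (i, 1))
          rw [raw_one, raw_one]
      rw [e1, e3, e4]
      congr 1
      rw [← mul_assoc]
      congr 1
      rw [cf, if_pos hbox, if_pos hbig', cf, if_pos hbox2, if_pos hbig2, cf, if_pos hbu,
        if_pos hbig, ← Finset.prod_mul_distrib]
      refine Finset.prod_congr rfl fun i _ => ?_
      rw [← pow_add, e2, Finsupp.add_apply, Finsupp.add_apply, raw_one, add_zero]
    · have e2 : sharp e m u = u := if_neg (fun h => hbig h.2)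
      rw [e2]
      by_cases hg : gam e u ∈ Z
      · have h1 : cf e Z m b (s + u) = 0 := by
          rw [cf, if_pos hbox]
          split_ifs with h2 h3
          · exact hb _ (gam_add e hZ hg)
          · rfl
          · exact absurd (gam_add e hZ hg) h3
        rw [h1, zero_mul, zero_mul]
      · have h1 : cf e Z m b u = 1 := by
          rw [cf, if_pos hbu, if_neg hbig, if_neg hg]
        rw [h1, one_mul]
  · have h1 : cf e Z m b (s + u) = 0 := by
      rw [cf, if_neg hbox]
    have h2 : cf e Z m b (s + sharp e m u) = 0 := by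
      rw [cf, if_neg (fun h => hbox ((box_congr e m hw).1 h))]
    rw [h1, h2, zero_mul, zero_mul, map_zero, map_zero]

lemma NF_mul (hZ : UpZ Z) {b : Fin r → T} (hb : Eqs Z b) (s : Fin n →₀ ℕ)
    (F : MvPolynomial (Fin n) T) : NF e Z m b (monomial s (1 : T) * F) =
      NF e Z m b (monomial s (1 : T) * NF e Z m b F) := by
  refine lin_ext (f := NF e Z m b ∘ₗ LinearMap.mulLeft T (monomial s (1 : T)))
    (g := NF e Z m b ∘ₗ LinearMap.mulLeft T (monomial s (1 : T)) ∘ₗ NF e Z m b) ?_ F
  intro u t
  simp only [LinearMap.comp_apply, LinearMap.mulLeft_apply, NF_monomial, monomial_mul, one_mul]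
  exact key_step e hZ hb s u t

/-- the ideal with the parameter `b` -/
noncomputable def idl (hZ : UpZ Z) {b : Fin r → T} (hb : Eqs Z b) :
    Ideal (MvPolynomial (Fin n) T) where
  carrier := {F | NF e Z m b F = 0}
  add_mem' := by
    intro F G hF hG
    rw [Set.mem_ofPred_eq] at hF hG ⊢
    rw [map_add, hF, hG, add_zero]
  zero_mem' := map_zero _
  smul_mem' := by
    intro G F hF
    rw [Set.mem_ofPred_eq] at hF ⊢
    rw [smul_eq_mul, G.as_sum, Finset.sum_mul, map_sum]
    apply Finset.sum_eq_zero
    intro u _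
    have h1 : monomial u (coeff u G) * F = coeff u G • (monomial u (1 : T) * F) := by
      rw [← smul_mul_assoc, smul_monomial, smul_eq_mul, mul_one]
    rw [h1, map_smul, NF_mul e hZ hb, hF, mul_zero, map_zero, smul_zero]

lemma mem_idl (hZ : UpZ Z) {b : Fin r → T} (hb : Eqs Z b) (F : MvPolynomial (Fin n) T) :
    F ∈ idl e (m := m) hZ hb ↔ NF e Z m b F = 0 := Iff.rfl

lemma coeff_NF (h0 : (0 : Fin r → ℕ) ∉ Z) (b : Fin r → T) {v : Fin n →₀ ℕ}
    (hv : ¬ std e Z m v) (F : MvPolynomial (Fin n) T) : coeff v (NF e Z m b F) = 0 := by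
  classical
  refine lin_ext (f := lcoeff T v ∘ₗ NF e Z m b) (g := 0) ?_ F
  intro u t
  rw [LinearMap.comp_apply, NF_monomial, lcoeff_apply, coeff_monomial, LinearMap.zero_apply]
  split_ifs with h
  · by_cases h1 : cf e Z m b u = 0
    · rw [h1, zero_mul]
    · exact absurd (h ▸ std_of_cf e h0 b h1) hv
  · rfl

lemma comp_monomial (a : Fin r → ℤ × ℤ) (u : Fin n →₀ ℕ) (t : T) :
    weightedHomogeneousComponent (wt e) a (monomial u t) =
      if Finsupp.weight (wt e) u = a then monomial u t else 0 := by
  classical
  ext v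
  rw [coeff_weightedHomogeneousComponent]
  by_cases h : Finsupp.weight (wt e) u = a
  · rw [if_pos h, coeff_monomial]
    by_cases hv : u = v
    · subst hv
      rw [if_pos h, if_pos rfl]
    · rw [if_neg hv, ite_self]
  · rw [if_neg h, coeff_zero]
    split_ifs with h1
    · rw [coeff_monomial, if_neg]
      rintro rfl
      exact h h1
    · rfl

lemma NF_comp (b : Fin r → T) (a : Fin r → ℤ × ℤ) (F : MvPolynomial (Fin n) T) :
    weightedHomogeneousComponent (wt e) a (NF e Z m b F) =
      NF e Z m b (weightedHomogeneousComponent (wt e) a F) := by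
  refine lin_ext (f := weightedHomogeneousComponent (wt e) a ∘ₗ NF e Z m b)
    (g := NF e Z m b ∘ₗ weightedHomogeneousComponent (wt e) a) ?_ F
  intro u t
  rw [LinearMap.comp_apply, LinearMap.comp_apply, NF_monomial, comp_monomial, comp_monomial,
    weight_sharp]
  split_ifs with h
  · rw [NF_monomial]
  · rw [map_zero]

lemma NF_sum_std (b : Fin r → T) {β : Type} [Fintype β] (v : β → (Fin n →₀ ℕ))
    (hv : ∀ i, std e Z m (v i)) (t : β → T) :
    NF e Z m b (∑ i, monomial (v i) (t i)) = ∑ i, monomial (v i) (t i) := by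
  rw [map_sum]
  exact Finset.sum_congr rfl fun i _ => NF_std e b (hv i) _

lemma idl_mem_hilb (hZ : UpZ Z) (h0 : (0 : Fin r → ℕ) ∉ Z) {b : Fin r → T} (hb : Eqs Z b) :
    idl e (m := m) hZ hb ∈ hilb (wt e) (hf e Z m) T := by
  classical
  refine ⟨?_, ?_⟩
  · intro F hF a
    rw [mem_idl] at hF ⊢
    rw [← NF_comp, hF, map_zero]
  · intro a
    let _ : Fintype {u : Fin n →₀ ℕ // Finsupp.weight (wt e) u = a ∧ std e Z m u} :=
      Fintype.ofFinite _
    let f0 : weightedHomogeneousSubmodule T (wt e) a →ₗ[T]
        ({u : Fin n →₀ ℕ // Finsupp.weight (wt e) u = a ∧ std e Z m u} → T) :=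
      LinearMap.pi fun v => lcoeff T v.1 ∘ₗ NF e Z m b ∘ₗ
        (weightedHomogeneousSubmodule T (wt e) a).subtype
    have hker : LinearMap.ker f0 =
        ((idl e (m := m) hZ hb).restrictScalars T).comap
          (weightedHomogeneousSubmodule T (wt e) a).subtype := by
      ext ⟨F, hF⟩
      rw [LinearMap.mem_ker, Submodule.mem_comap, Submodule.restrictScalars_mem,
        Submodule.subtype_apply, mem_idl]
      constructor
      · intro h1
        ext v
        rw [coeff_zero]
        by_cases hv : std e Z m v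
        · by_cases hva : Finsupp.weight (wt e) v = a
          · exact congrFun h1 ⟨v, hva, hv⟩
          · have h2 : weightedHomogeneousComponent (wt e) a F = F := by
              rw [weightedHomogeneousComponent_of_mem hF, if_pos rfl]
            change coeff v (NF e Z m b F) = 0
            rw [← h2, ← NF_comp, coeff_weightedHomogeneousComponent, if_neg hva]
        · exact coeff_NF e h0 b hv F
      · intro h1
        funext v
        change coeff v.1 (NF e Z m b F) = 0
        rw [h1, coeff_zero]
    have hsurj : Function.Surjective f0 := by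
      intro t
      refine ⟨⟨∑ v : {u : Fin n →₀ ℕ // Finsupp.weight (wt e) u = a ∧ std e Z m u},
        monomial v.1 (t v), Submodule.sum_mem _ fun v _ =>
          isWeightedHomogeneous_monomial _ _ _ v.2.1⟩, ?_⟩
      funext v
      change coeff v.1 (NF e Z m b (∑ v : {u : Fin n →₀ ℕ //
        Finsupp.weight (wt e) u = a ∧ std e Z m u}, monomial v.1 (t v))) = t v
      have h5 := NF_sum_std e b
        (fun v : {u : Fin n →₀ ℕ // Finsupp.weight (wt e) u = a ∧ std e Z m u} => v.1)
        (fun v => v.2.2) t
      rw [h5, coeff_sum, Finset.sum_eq_single v]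
      · rw [coeff_monomial, if_pos rfl]
      · intro v' _ hv'
        rw [coeff_monomial, if_neg (fun hh => hv' (Subtype.ext hh))]
      · intro hj
        exact absurd (Finset.mem_univ v) hj
    have ee := f0.quotKerEquivOfSurjective hsurj
    rw [hker] at ee
    refine LocallyFreeOfRank.congr ?_ ee.symm
    refine ⟨inferInstance, inferInstance, fun p => ?_⟩
    have : Nontrivial T := p.nontrivial
    rw [Module.rankAtStalk_eq_finrank_of_free, Pi.natCast_apply,
      Module.finrank_fintype_fun_eq_card, hf, Nat.card_eq_fintype_card]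
    simp

/-- `u` minus its normal form lies in the ideal -/
lemma sub_NF_mem (hZ : UpZ Z) (h0 : (0 : Fin r → ℕ) ∉ Z) {b : Fin r → T} (hb : Eqs Z b)
    (u : Fin n →₀ ℕ) :
    monomial u (1 : T) - monomial (sharp e m u) (cf e Z m b u) ∈ idl e (m := m) hZ hb := by
  rw [mem_idl, map_sub, NF_monomial, NF_monomial, mul_one]
  by_cases h1 : cf e Z m b u = 0
  · rw [h1, mul_zero, map_zero, map_zero, sub_self]
  · have h2 := std_of_cf e h0 b h1
    rw [sharp_of_std e h2, cf_of_std e b h2, one_mul, sub_self]

lemma NF_map {T' : Type u} [CommRing T'] (φ : T →+* T') (b : Fin r → T)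
    (F : MvPolynomial (Fin n) T) :
    NF e Z m (fun i => φ (b i)) (MvPolynomial.map φ F) = MvPolynomial.map φ (NF e Z m b F) := by
  have hcf : ∀ u, cf e Z m (fun i => φ (b i)) u = φ (cf e Z m b u) := by
    intro u
    unfold cf
    split_ifs
    · rw [map_prod]
      simp only [map_pow]
    · rw [map_zero]
    · rw [map_one]
    · rw [map_zero]
  rw [F.as_sum]
  simp only [map_sum]
  refine Finset.sum_congr rfl fun u _ => ?_
  rw [map_monomial, NF_monomial, NF_monomial, map_monomial, hcf, RingHom.map_mul]

lemma map_idl {T' : Type u} [CommRing T'] (φ : T →+* T') (hZ : UpZ Z)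
    (h0 : (0 : Fin r → ℕ) ∉ Z) {b : Fin r → T} (hb : Eqs Z b)
    (hb' : Eqs Z (fun i => φ (b i))) :
    Ideal.map (MvPolynomial.map φ) (idl e (m := m) hZ hb) = idl e (m := m) hZ hb' := by
  apply le_antisymm
  · rw [Ideal.map_le_iff_le_comap]
    intro F hF
    rw [mem_idl] at hF
    rw [Ideal.mem_comap, mem_idl, NF_map, hF, map_zero]
  · intro G hG
    rw [mem_idl] at hG
    have hcf : ∀ u, cf e Z m (fun i => φ (b i)) u = φ (cf e Z m b u) := by
      intro u
      unfold cf
      split_ifs
      · rw [map_prod]
        simp only [map_pow]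
      · rw [map_zero]
      · rw [map_one]
      · rw [map_zero]
    have h1 : G = ∑ u ∈ G.support, C (coeff u G) * MvPolynomial.map φ
        (monomial u (1 : T) - monomial (sharp e m u) (cf e Z m b u)) := by
      have h2 : G - NF e Z m (fun i => φ (b i)) G = ∑ u ∈ G.support,
          (monomial u (coeff u G) - monomial (sharp e m u)
            (cf e Z m (fun i => φ (b i)) u * coeff u G)) := by
        rw [Finset.sum_sub_distrib, ← G.as_sum]
        congr 1
        conv_lhs => rw [G.as_sum]
        rw [map_sum]
        exact Finset.sum_congr rfl fun u _ => NF_monomial e Z m _ u _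
      rw [hG, sub_zero] at h2
      conv_lhs => rw [h2]
      refine Finset.sum_congr rfl fun u _ => ?_
      rw [map_sub, map_monomial, map_monomial, map_one, mul_sub, C_mul_monomial, C_mul_monomial,
        mul_one, hcf, mul_comm (coeff u G)]
    rw [h1]
    apply Ideal.sum_mem
    intro u _
    exact Ideal.mul_mem_left _ _ (Ideal.mem_map_of_mem _ (sub_NF_mem e hZ h0 hb u))

end Pool.Agent.Y188.FP
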